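import Mathlib
import Pool.Agent.H2Z.MenDefs
import Pool.Agent.H2Z.MenB

set_option autoImplicit false

namespace Pool.Agent.Results.MP_1b3842_gt.MengerScaleCH

open Cardinal Pool.Agent.H2Z.MenDefs

theorem result (hCH : continuum.{0} = aleph 1) :
    ∃ X : Set InfSet, IsCFinScale X ∧ IsMenger X :=
  Pool.Agent.H2Z.Men.main hCH

end Pool.Agent.Results.MP_1b3842_gt.MengerScaleCH
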